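import Pool.Agent.H85.AU.Targets

/-! Module G12: the pair `(F_{X \ Z j}, B)` is good everywhere. -/

open CategoryTheory CategoryTheory.Limits TopologicalSpace Topology Set
open Pool.Agent.H96.AL

universe w

namespace Pool.Agent.H33.AU

open Pool.Agent.H85.AU

theorem pf_G12 : T_CUT.{w} → T_PSH.{w} → T_GLC.{w} → T_G11.{w} → T_G12.{w} := by
  intro hCUT hPSH hGLC hG11 X _ _ _ C _ _ _ Z hZ hm t m hATI N B hB j x
  by_cases hx : x ∈ Z j
  · intro n V hxV
    have hB' : t.Con (max 1 N) B := t.con_mono N _ (le_max_right _ _) B hB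
    have h1' : t.Con (max 1 N) t.one := t.con_mono 1 _ (le_max_left _ _) _ t.con_one
    obtain ⟨U, hxU, hUV, h, hf⟩ := hPSH X C Z hZ hm t m hATI (max 1 N) t.one B h1' hB' j x hx
      (fun y _ => hG11 X C Z hZ hm t m hATI N B hB y) n V hxV
    exact ⟨U, hxU, hUV, hCUT X C t.toCutSys t.one B n (co hZ j) U V hUV h hf⟩
  · have hxc : x ∈ co hZ j := hx
    have iso := t.toCutSys.isIso_fm_ep (le_refl (co hZ j)) t.one
    exact hGLC X C t.toCutSys _ t.one B x (co hZ j) hxc
      ⟨asIso (t.toCutSys.fm (co hZ j) (t.toCutSys.ep (co hZ j) t.one))⟩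
      (hG11 X C Z hZ hm t m hATI N B hB x)

end Pool.Agent.H33.AU
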